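import Pool.Agent.P.MP_796fdb_co.Dens

open Pool.Agent.P.MP_796fdb_co Pointwise Filter Topology

/-- The Plünnecke inequality for lower rectangular density holds with the constant `Γ(1 + k'/k)`. -/
theorem Pool.Agent.Results.MP_796fdb_co.GammaConst.result (A B : Set (ℕ × ℕ)) (k' k : ℕ)
    (h0 : 0 < k') (hk : k' < k) :
    Real.Gamma (1 + (k' : ℝ) / k) * lowerRect A ^ (1 - (k' : ℝ) / k) *
      lowerRect (k • B) ^ ((k' : ℝ) / k) ≤ lowerRect (A + k' • B) := by
  have k0 : (0 : ℝ) < k := by exact_mod_cast h0.trans hk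
  have e0 : (0 : ℝ) < k' / k := by positivity
  have e1 : (0 : ℝ) < 1 - k' / k := sub_pos.mpr ((div_lt_one k0).mpr (by exact_mod_cast hk))
  rcases (lowerRect_nonneg A).eq_or_lt with h1 | h1
  · rw [← h1, Real.zero_rpow e1.ne', mul_zero, zero_mul]; exact lowerRect_nonneg _
  rcases (lowerRect_nonneg (k • B)).eq_or_lt with h2 | h2
  · rw [← h2, Real.zero_rpow e0.ne', mul_zero]; exact lowerRect_nonneg _
  have c : Continuous fun t : ℝ => Real.Gamma (1 + (k' : ℝ) / k) * (t * lowerRect A) ^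
      (1 - (k' : ℝ) / k) * (t * lowerRect (k • B)) ^ ((k' : ℝ) / k) :=
    (continuous_const.mul (Continuous.rpow_const (by fun_prop) fun _ => Or.inr e1.le)).mul
      (Continuous.rpow_const (by fun_prop) fun _ => Or.inr e0.le)
  have := (c.tendsto 1).mono_left (nhdsWithin_le_nhds (s := Set.Iio 1))
  rw [one_mul, one_mul] at this
  refine le_of_tendsto this ?_
  filter_upwards [Ioo_mem_nhdsLT zero_lt_one] with t ht
  exact main h0 hk (mul_pos ht.1 h1) (mul_pos ht.1 h2) (mul_lt_of_lt_one_left h1 ht.2)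
    (mul_lt_of_lt_one_left h2 ht.2)
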